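import Mathlib

set_option autoImplicit false
set_option maxRecDepth 100000

namespace Pool.Agent.Results.MP_058057_co.Counter
open Classical

/-- partitions of `n` into distinct parts (finite sets of positive integers with sum `n`), no part divisible by `4` -/
def Qn (n : ℕ) : ℕ :=
  ((Finset.Icc 1 n).powerset.filter fun s => ∑ i ∈ s, i = n ∧ ∀ i ∈ s, ¬ 4 ∣ i).card

/-- `Q_0` on the integers, zero at negative arguments -/
def Q0 (m : ℤ) : ℤ := if m < 0 then 0 else Qn m.toNat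

noncomputable def xi (n : ℕ) : ℤ :=
  if n = 0 then 1 else if h : ∃ m : ℕ, 1 ≤ m ∧ n = 4 * m ^ 2 then 2 * (-1) ^ h.choose else 0

def S (k n : ℕ) : ℤ :=
  ∑ j ∈ Finset.range (2 * k), (-1) ^ (j * (j + 1) / 2) * Q0 ((n : ℤ) - (j * (j + 1) / 2 : ℕ))

lemma h6 : Qn 6 = 3 := by decide +kernel
lemma h7 : Qn 7 = 3 := by decide +kernel

lemma xi7 : xi 7 = 0 := by
  unfold xi
  rw [if_neg (by norm_num), dif_neg]
  rintro ⟨m, -, h⟩
  omega

lemma S17 : S 1 7 = 0 := by
  have a : Q0 7 = 3 := by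
    unfold Q0
    rw [if_neg (by norm_num)]
    exact_mod_cast h7
  have b : Q0 6 = 3 := by
    unfold Q0
    rw [if_neg (by norm_num)]
    exact_mod_cast h6
  unfold S
  simp [Finset.sum_range_succ, a, b]

theorem result : ¬ ∀ n k : ℕ, 1 ≤ k →
    0 ≤ (-1) ^ (k - 1) * (S k n - xi n) ∧
      (0 < (-1) ^ (k - 1) * (S k n - xi n) ↔ k * (2 * k + 1) ≤ n) := by
  intro h
  have := ((h 7 1 le_rfl).2.2 (by norm_num))
  rw [S17, xi7] at this
  simp at this

end Pool.Agent.Results.MP_058057_co.Counter
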